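import Mathlib

set_option autoImplicit false

/-! # Many cells -/

namespace Pool.Agent.K4H88.Rounds

open Finset

/-- the pairs of places -/
abbrev Pr (n : ℕ) : Type := (j : Fin n) × Fin j.val

def Pr.fst {n : ℕ} (a : Pr n) : Fin n := ⟨a.2.val, a.2.isLt.trans a.1.isLt⟩

theorem Pr.lt {n : ℕ} (a : Pr n) : a.fst < a.1 := a.2.isLt

theorem card_pr (n : ℕ) : Fintype.card (Pr n) = n.choose 2 := by
  rw [Fintype.card_sigma]
  simp only [Fintype.card_fin]
  rw [Fin.sum_univ_eq_sum_range (fun j => j) n, sum_range_id, Nat.choose_two_right]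

/-- all numbers and all sums of two of them are different -/
def Sid {n : ℕ} (p : Fin n → ℤ) : Prop :=
  Function.Injective p ∧ ∀ i j i' j' : Fin n, i < j → i' < j' → p i + p j = p i' + p j' →
    i = i' ∧ j = j'

/-- the sums -/
def sums {n : ℕ} (p : Fin n → ℤ) : Finset ℤ := univ.image (fun a : Pr n => p a.fst + p a.1)

theorem card_sums {n : ℕ} {p : Fin n → ℤ} (h : Sid p) : (sums p).card = n.choose 2 := by
  unfold sums
  rw [card_image_of_injective, card_univ, card_pr]
  intro a b hab
  obtain ⟨h1, h2⟩ := h.2 _ _ _ _ a.lt b.lt hab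
  obtain ⟨j, i⟩ := a
  obtain ⟨j', i'⟩ := b
  simp only at h2
  subst h2
  have : i = i' := by
    apply Fin.ext
    have := congrArg Fin.val h1
    exact this
  rw [this]

/-- the positions of the next number -/
def nxt {n : ℕ} (p : Fin n → ℤ) : Finset ℤ :=
  insert (3 * (∑ s ∈ sums p, |s|) + 1) ((sums p).image (fun s => 3 * s - 1))

theorem card_nxt {n : ℕ} {p : Fin n → ℤ} (h : Sid p) : (nxt p).card = n.choose 2 + 1 := by
  unfold nxt
  rw [card_insert_of_notMem, card_image_of_injective, card_sums h]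
  · intro a b hab
    simp only at hab
    omega
  · intro hm
    rw [mem_image] at hm
    obtain ⟨s, -, hs⟩ := hm
    omega

theorem nxt_mod {n : ℕ} {p : Fin n → ℤ} {y : ℤ} (hy : y ∈ nxt p) (a : ℤ) : y ≠ 3 * a := by
  unfold nxt at hy
  rw [mem_insert, mem_image] at hy
  rcases hy with rfl | ⟨s, -, rfl⟩ <;> omega

/-- the next point -/
def ext' {n : ℕ} (p : Fin n → ℤ) (y : ℤ) : Fin (n + 1) → ℤ :=
  Fin.snoc (α := fun _ => ℤ) (fun i => 3 * p i) y

theorem ext'_cast {n : ℕ} (p : Fin n → ℤ) (y : ℤ) (i : Fin n) : ext' p y i.castSucc = 3 * p i := by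
  simp [ext']

theorem ext'_last {n : ℕ} (p : Fin n → ℤ) (y : ℤ) : ext' p y (Fin.last n) = y := by
  simp [ext']

theorem sid_ext' {n : ℕ} {p : Fin n → ℤ} (h : Sid p) {y : ℤ} (hy : y ∈ nxt p) : Sid (ext' p y) := by
  have hmod := nxt_mod hy
  constructor
  · intro a b hab
    induction a using Fin.lastCases with
    | last =>
      induction b using Fin.lastCases with
      | last => rfl
      | cast b =>
        rw [ext'_last, ext'_cast] at hab
        exact absurd hab (hmod _)
    | cast a =>
      induction b using Fin.lastCases with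
      | last =>
        rw [ext'_last, ext'_cast] at hab
        exact absurd hab.symm (hmod _)
      | cast b =>
        rw [ext'_cast, ext'_cast] at hab
        rw [h.1 (show p a = p b by omega)]
  · intro i j i' j' hij hij' he
    have hi : i ≠ Fin.last n := (hij.trans_le (Fin.le_last j)).ne
    have hi' : i' ≠ Fin.last n := (hij'.trans_le (Fin.le_last j')).ne
    obtain ⟨i, rfl⟩ := Fin.exists_castSucc_eq.2 hi
    obtain ⟨i', rfl⟩ := Fin.exists_castSucc_eq.2 hi'
    induction j using Fin.lastCases with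
    | last =>
      induction j' using Fin.lastCases with
      | last =>
        rw [ext'_last, ext'_cast, ext'_cast] at he
        rw [h.1 (show p i = p i' by omega)]
        exact ⟨rfl, rfl⟩
      | cast j' =>
        rw [ext'_last, ext'_cast, ext'_cast, ext'_cast] at he
        exact absurd (show y = 3 * (p i' + p j' - p i) by linarith) (hmod _)
    | cast j =>
      induction j' using Fin.lastCases with
      | last =>
        rw [ext'_last, ext'_cast, ext'_cast, ext'_cast] at he
        exact absurd (show y = 3 * (p i + p j - p i') by linarith) (hmod _)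
      | cast j' =>
        rw [ext'_cast, ext'_cast, ext'_cast, ext'_cast] at he
        obtain ⟨h1, h2⟩ := h.2 i j i' j' (by simpa using hij) (by simpa using hij')
          (by linarith)
        rw [h1, h2]
        exact ⟨rfl, rfl⟩

/-- two points are strictly separated by one of the hyperplanes -/
def Sep {n : ℕ} (p q : Fin n → ℤ) : Prop :=
  ∃ i j k : Fin n, i ≠ j ∧ i ≠ k ∧ j ≠ k ∧ p i + p j - p k < 0 ∧ 0 < q i + q j - q k

theorem sep_of_lt {n : ℕ} (p : Fin n → ℤ) {y z : ℤ} (hy : y ∈ nxt p) (hz : z ∈ nxt p)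
    (h : y < z) : Sep (ext' p z) (ext' p y) := by
  unfold nxt at hy hz
  rw [mem_insert, mem_image] at hy hz
  have hmax : ∀ s ∈ sums p, s ≤ ∑ s ∈ sums p, |s| := fun s hs =>
    (le_abs_self s).trans (single_le_sum (f := fun s => |s|) (fun _ _ => abs_nonneg _) hs)
  rcases hy with rfl | ⟨s, hs, rfl⟩
  · rcases hz with rfl | ⟨s', hs', rfl⟩
    · exact absurd h (lt_irrefl _)
    · have := hmax s' hs'
      omega
  · have hz' : 3 * s < z := by
      rcases hz with rfl | ⟨s', hs', rfl⟩
      · have := hmax s hs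
        omega
      · omega
    unfold sums at hs
    rw [mem_image] at hs
    obtain ⟨a, -, rfl⟩ := hs
    refine ⟨a.fst.castSucc, a.1.castSucc, Fin.last n, ?_, ?_, ?_, ?_, ?_⟩
    · intro hc
      exact a.lt.ne (Fin.castSucc_injective n hc)
    · exact (Fin.castSucc_lt_last _).ne
    · exact (Fin.castSucc_lt_last _).ne
    · rw [ext'_last, ext'_cast, ext'_cast]; linarith
    · rw [ext'_last, ext'_cast, ext'_cast]; linarith

theorem sep_ext' {n : ℕ} {p q : Fin n → ℤ} (h : Sep p q) (y z : ℤ) : Sep (ext' p y) (ext' q z) := by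
  obtain ⟨i, j, k, h1, h2, h3, h4, h5⟩ := h
  refine ⟨i.castSucc, j.castSucc, k.castSucc, fun hc => h1 (Fin.castSucc_injective n hc),
    fun hc => h2 (Fin.castSucc_injective n hc), fun hc => h3 (Fin.castSucc_injective n hc), ?_, ?_⟩
  · simp only [ext'_cast]; linarith
  · simp only [ext'_cast]; linarith

theorem cells : ∀ n : ℕ, ∃ 𝒬 : Finset (Fin n → ℤ), 𝒬.card = ∏ k ∈ range n, (k.choose 2 + 1) ∧
    (∀ p ∈ 𝒬, Sid p) ∧ ∀ p ∈ 𝒬, ∀ q ∈ 𝒬, p ≠ q → Sep p q ∨ Sep q p
  | 0 => by
    refine ⟨{fun i => i.elim0}, by simp, fun p _ => ?_, fun p hp q hq hpq => ?_⟩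
    · exact ⟨fun a => a.elim0, fun i => i.elim0⟩
    · rw [mem_singleton] at hp hq
      exact absurd (hp.trans hq.symm) hpq
  | n + 1 => by
    obtain ⟨𝒬, h1, h2, h3⟩ := cells n
    have hinj : ∀ p q : Fin n → ℤ, ∀ y z, ext' p y = ext' q z → p = q ∧ y = z := by
      intro p q y z he
      constructor
      · funext i
        have := congrFun he i.castSucc
        rw [ext'_cast, ext'_cast] at this
        omega
      · have := congrFun he (Fin.last n)
        rwa [ext'_last, ext'_last] at this
    refine ⟨(𝒬.sigma (fun p => nxt p)).image (fun a => ext' a.1 a.2), ?_, ?_, ?_⟩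
    · rw [card_image_of_injective, card_sigma, prod_range_succ, ← h1, ← smul_eq_mul, ← sum_const]
      · exact sum_congr rfl fun p hp => card_nxt (h2 p hp)
      · intro a b hab
        obtain ⟨e1, e2⟩ := hinj _ _ _ _ hab
        exact Sigma.ext e1 (heq_of_eq e2)
    · intro p hp
      rw [mem_image] at hp
      obtain ⟨a, ha, rfl⟩ := hp
      rw [mem_sigma] at ha
      exact sid_ext' (h2 _ ha.1) ha.2
    · intro p hp q hq hpq
      rw [mem_image] at hp hq
      obtain ⟨a, ha, rfl⟩ := hp
      obtain ⟨b, hb, rfl⟩ := hq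
      rw [mem_sigma] at ha hb
      by_cases hab : a.1 = b.1
      · have hne : a.2 ≠ b.2 := by
          intro he
          apply hpq
          rw [hab, he]
        rw [← hab] at hb ⊢
        rcases lt_or_gt_of_ne hne with h | h
        · exact Or.inr (sep_of_lt _ ha.2 hb.2 h)
        · exact Or.inl (sep_of_lt _ hb.2 ha.2 h)
      · rcases h3 _ ha.1 _ hb.1 hab with h | h
        · exact Or.inl (sep_ext' h _ _)
        · exact Or.inr (sep_ext' h _ _)

/-- the number of cells -/
theorem prod_lower (n : ℕ) : (n.factorial : ℝ) ^ 2 ≤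
    8 ^ n * ∏ k ∈ range n, ((k.choose 2 + 1 : ℕ) : ℝ) := by
  induction n with
  | zero => simp
  | succ n ih =>
    rw [Nat.factorial_succ, prod_range_succ, pow_succ]
    have h1 : ((n : ℝ) + 1) ^ 2 ≤ 8 * ((n.choose 2 + 1 : ℕ) : ℝ) := by
      push_cast
      rw [Nat.cast_choose_two]
      nlinarith [sq_nonneg ((n : ℝ) - 1)]
    push_cast at h1 ih ⊢
    have h2 : (0 : ℝ) ≤ (n.factorial : ℝ) ^ 2 := by positivity
    calc (((n : ℝ) + 1) * n.factorial) ^ 2 = ((n : ℝ) + 1) ^ 2 * (n.factorial : ℝ) ^ 2 := by ring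
      _ ≤ (8 * ((n.choose 2 : ℝ) + 1)) * (8 ^ n * ∏ k ∈ range n, ((k.choose 2 : ℝ) + 1)) :=
          mul_le_mul h1 ih h2 (by positivity)
      _ = _ := by ring

end Pool.Agent.K4H88.Rounds
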