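import Pool.Agent.K4H88.Rounds.Inf

set_option autoImplicit false

/-! # The number of leaves -/

namespace Pool.Agent.K4H88.Rounds

open Finset

variable {n : ℕ}

/-- the number of cells of an arrangement -/
def phi (n m : ℕ) : ℕ := ∑ i ∈ range (n + 1), m.choose i

theorem phi_mono {m m' : ℕ} (h : m ≤ m') : phi n m ≤ phi n m' :=
  sum_le_sum fun i _ => Nat.choose_le_choose i h

theorem one_le_phi (m : ℕ) : 1 ≤ phi n m := by
  unfold phi
  rw [sum_range_succ']
  simp

open Classical in
/-- few sign vectors -/
theorem card_signs {m : ℕ} (L : Fin m → Fin n → ℝ) (b : Fin m → ℝ) (G : Finset (Fin n → ℝ))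
    (hG : ∀ g ∈ G, ∀ j, L j ≠ 0 → lin (L j) g ≠ 0) :
    (G.image (sg L b)).card ≤ phi n m := by
  obtain ⟨𝒜, h𝒜⟩ : ∃ 𝒜 : Finset (Finset (Fin m)),
    𝒜 = G.image (fun g => univ.filter (fun j => 0 < lin (L j) g)) := ⟨_, rfl⟩
  have h1 : (G.image (sg L b)).card ≤ 𝒜.card := by
    have e : G.image (sg L b) ⊆ 𝒜.image (fun s => fun j =>
        if L j = 0 then SignType.sign (b j) else if j ∈ s then 1 else -1) := by
      intro σ hσ
      rw [mem_image] at hσ
      obtain ⟨g, hg, rfl⟩ := hσ
      rw [mem_image]
      refine ⟨univ.filter (fun j => 0 < lin (L j) g), ?_, ?_⟩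
      · rw [h𝒜]
        exact mem_image_of_mem _ hg
      · funext j
        simp only [sg, mem_filter, mem_univ, true_and]
        split_ifs with h2 h3
        · rfl
        · exact (sign_pos h3).symm
        · have := hG g hg j h2
          exact (sign_neg (lt_of_le_of_ne (not_lt.1 h3) this)).symm
    exact (card_le_card e).trans card_image_le
  have h2 : ∀ s ∈ 𝒜.shatterer, s.card ≤ n := by
    intro s hs
    rw [mem_shatterer] at hs
    by_contra hcard
    push Not at hcard
    -- a linear dependence
    have hdep : ¬ LinearIndependent ℝ (fun j : s => L j.1) := by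
      intro hli
      have := hli.fintype_card_le_finrank
      rw [Fintype.card_coe, Module.finrank_fintype_fun_eq_card, Fintype.card_fin] at this
      omega
    rw [Fintype.not_linearIndependent_iff] at hdep
    obtain ⟨c, hc1, j0, hj0⟩ := hdep
    have key : ∀ c : s → ℝ, ∑ j, c j • L j.1 = 0 → (∃ j, 0 < c j) → False := by
      intro c hc ⟨j1, hj1⟩
      obtain ⟨u, hu, hsu⟩ := hs (t := (univ.filter (fun j : s => 0 < c j)).image Subtype.val) (by
        intro x hx
        rw [mem_image] at hx
        obtain ⟨y, -, rfl⟩ := hx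
        exact y.2)
      rw [h𝒜, mem_image] at hu
      obtain ⟨g, hg, rfl⟩ := hu
      have hmem : ∀ j : s, 0 < lin (L j.1) g ↔ 0 < c j := by
        intro j
        have e := Finset.ext_iff.1 hsu j.1
        rw [mem_inter, mem_filter, mem_image] at e
        constructor
        · intro h3
          obtain ⟨y, hy, hy2⟩ := e.1 ⟨j.2, mem_univ _, h3⟩
          rw [mem_filter] at hy
          have : y = j := Subtype.ext hy2
          rw [← this]
          exact hy.2
        · intro h3
          exact (e.2 ⟨j, mem_filter.2 ⟨mem_univ _, h3⟩, rfl⟩).2.2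
      have h4 : ∑ j, c j * lin (L j.1) g = 0 := by
        have : ∑ j, c j * lin (L j.1) g = lin (∑ j, c j • L j.1) g := by
          unfold lin
          simp only [mul_sum]
          rw [sum_comm]
          refine sum_congr rfl fun u _ => ?_
          rw [Finset.sum_apply, sum_mul]
          exact sum_congr rfl fun j _ => by simp [mul_assoc]
        rw [this, hc, lin_zero]
      have h5 : 0 < ∑ j, c j * lin (L j.1) g := by
        apply sum_pos'
        · intro j _
          by_cases h6 : 0 < c j
          · exact (mul_pos h6 ((hmem j).2 h6)).le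
          · have h7 : ¬ 0 < lin (L j.1) g := fun h8 => h6 ((hmem j).1 h8)
            exact mul_nonneg_of_nonpos_of_nonpos (not_lt.1 h6) (not_lt.1 h7)
        · exact ⟨j1, mem_univ _, mul_pos hj1 ((hmem j1).2 hj1)⟩
      linarith
    rcases lt_or_gt_of_ne hj0 with h3 | h3
    · apply key (fun j => - c j)
      · simp only [neg_smul, sum_neg_distrib, hc1, neg_zero]
      · exact ⟨j0, by linarith⟩
    · exact key c hc1 ⟨j0, h3⟩
  have h3 : 𝒜.shatterer.card ≤ phi n m := by
    have e : 𝒜.shatterer ⊆ (range (n + 1)).biUnion (fun i => powersetCard i univ) := by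
      intro s hs
      rw [mem_biUnion]
      exact ⟨s.card, mem_range.2 (by have := h2 s hs; omega), mem_powersetCard.2 ⟨subset_univ _, rfl⟩⟩
    refine (card_le_card e).trans (card_biUnion_le.trans ?_)
    apply sum_le_sum
    intro i _
    rw [card_powersetCard, card_univ, Fintype.card_fin]
  exact h1.trans ((card_le_card_shatterer 𝒜).trans h3)

open Classical in
/-- few leaves -/
theorem card_leaves : ∀ {r : ℕ} (F : RTree n r) (C : ℕ) (G : Finset (Fin n → ℝ)),
    (∀ g ∈ G, F.Gen g) → (∀ g ∈ G, F.costI g ≤ C) →
    (∀ g ∈ G, ∀ h ∈ G, F.Same g h → g = h) → G.card ≤ phi n C ^ r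
  | r, RTree.leaf _, C, G, _, _, h => by
    have h1 : G.card ≤ 1 := by
      rw [card_le_one]
      exact fun g hg g' hg' => h g hg g' hg' trivial
    exact h1.trans (Nat.one_le_pow _ _ (one_le_phi C))
  | _, RTree.round (r := r) m L b child, C, G, hg, hc, h => by
    have h1 : G.card ≤ ∑ σ ∈ G.image (sg L b), (G.filter (fun g => sg L b g = σ)).card := by
      rw [← card_eq_sum_card_image]
    by_cases hG : G = ∅
    · rw [hG]; simp
    have hm : m ≤ C := by
      obtain ⟨g, hgG⟩ := nonempty_iff_ne_empty.2 hG
      have := hc g hgG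
      simp only [RTree.costI] at this
      omega
    have h2 : ∀ σ, (G.filter (fun g => sg L b g = σ)).card ≤ phi n C ^ r := by
      intro σ
      apply card_leaves (child σ) C
      · intro g hg'
        rw [mem_filter] at hg'
        have := (hg g hg'.1).2
        rw [hg'.2] at this
        exact this
      · intro g hg'
        rw [mem_filter] at hg'
        have := hc g hg'.1
        simp only [RTree.costI] at this
        rw [hg'.2] at this
        omega
      · intro g hg' g' hg'' hs
        rw [mem_filter] at hg' hg''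
        apply h g hg'.1 g' hg''.1
        refine ⟨hg'.2.trans hg''.2.symm, ?_⟩
        rw [hg'.2]
        exact hs
    calc G.card ≤ ∑ σ ∈ G.image (sg L b), (G.filter (fun g => sg L b g = σ)).card := h1
      _ ≤ ∑ _σ ∈ G.image (sg L b), phi n C ^ r := sum_le_sum fun σ _ => h2 σ
      _ = (G.image (sg L b)).card * phi n C ^ r := by rw [sum_const, smul_eq_mul]
      _ ≤ phi n C * phi n C ^ r := by
          apply Nat.mul_le_mul_right
          exact (card_signs L b G (fun g hg' => (hg g hg').1)).trans (phi_mono hm)
      _ = phi n C ^ (r + 1) := by rw [pow_succ, mul_comm]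

end Pool.Agent.K4H88.Rounds
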