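import Pool.Agent.K4H88.Ter.Defs

set_option autoImplicit false

/-! # Linear decision trees with few rounds -/

namespace Pool.Agent.K4H88.Rounds

open Finset

/-- Linear decision trees with (at most) `r` rounds, for lists of `n` integers. In a round the signs
of the values of `m` affine functions `x ↦ ∑ u, L j u * x u + b j` are determined, where `L`, `b` and `m`
may depend in an arbitrary way on the outcomes of the previous rounds. -/
inductive RTree (n : ℕ) : ℕ → Type
  | leaf : {r : ℕ} → Bool → RTree n r
  | round : {r : ℕ} → (m : ℕ) → (L : Fin m → Fin n → ℝ) → (b : Fin m → ℝ) →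
      (child : (Fin m → SignType) → RTree n r) → RTree n (r + 1)

/-- The outcomes of the tests of a round. -/
noncomputable def signs {n m : ℕ} (L : Fin m → Fin n → ℝ) (b : Fin m → ℝ) (x : Fin n → ℤ) :
    Fin m → SignType :=
  fun j => SignType.sign (∑ u, L j u * (x u : ℝ) + b j)

namespace RTree

variable {n : ℕ}

/-- The answer of the tree. -/
noncomputable def eval : {r : ℕ} → RTree n r → (Fin n → ℤ) → Bool
  | _, leaf c, _ => c
  | _, round _ L b child, x => (child (signs L b x)).eval x

/-- The number of tests which are made (in all rounds). -/
noncomputable def cost : {r : ℕ} → RTree n r → (Fin n → ℤ) → ℕ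
  | _, leaf _, _ => 0
  | _, round m L b child, x => m + (child (signs L b x)).cost x

end RTree

end Pool.Agent.K4H88.Rounds
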