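import Pool.Agent.K4H88.Rounds.Defs

set_option autoImplicit false

/-! # The computations for large inputs -/

namespace Pool.Agent.K4H88.Rounds

open Finset Filter

variable {n : ℕ}

/-- linear functions -/
def lin (l g : Fin n → ℝ) : ℝ := ∑ u, l u * g u

theorem lin_add (l g h : Fin n → ℝ) (a b : ℝ) :
    lin l (fun u => a * g u + b * h u) = a * lin l g + b * lin l h := by
  unfold lin
  rw [mul_sum, mul_sum, ← sum_add_distrib]
  exact sum_congr rfl fun u _ => by ring

theorem lin_zero (g : Fin n → ℝ) : lin 0 g = 0 := by simp [lin]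

/-- the outcomes for large inputs in the direction `g` -/
noncomputable def sg {m : ℕ} (L : Fin m → Fin n → ℝ) (b : Fin m → ℝ) (g : Fin n → ℝ) :
    Fin m → SignType :=
  fun j => if L j = 0 then SignType.sign (b j) else SignType.sign (lin (L j) g)

namespace RTree

noncomputable def evalI : {r : ℕ} → RTree n r → (Fin n → ℝ) → Bool
  | _, leaf c, _ => c
  | _, round _ L b child, g => (child (sg L b g)).evalI g

noncomputable def costI : {r : ℕ} → RTree n r → (Fin n → ℝ) → ℕ
  | _, leaf _, _ => 0
  | _, round m L b child, g => m + (child (sg L b g)).costI g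

/-- no ties on the path of `g` -/
def Gen : {r : ℕ} → RTree n r → (Fin n → ℝ) → Prop
  | _, leaf _, _ => True
  | _, round _ L b child, g => (∀ j, L j ≠ 0 → lin (L j) g ≠ 0) ∧ (child (sg L b g)).Gen g

/-- no ties at all -/
def GenAll : {r : ℕ} → RTree n r → (Fin n → ℝ) → Prop
  | _, leaf _, _ => True
  | _, round _ L _ child, g => (∀ j, L j ≠ 0 → lin (L j) g ≠ 0) ∧ ∀ σ, (child σ).GenAll g

/-- the same path -/
def Same : {r : ℕ} → RTree n r → (Fin n → ℝ) → (Fin n → ℝ) → Prop
  | _, leaf _, _, _ => True
  | _, round _ L b child, g, h => sg L b g = sg L b h ∧ (child (sg L b g)).Same g h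

theorem GenAll.gen : ∀ {r : ℕ} {F : RTree n r} {g : Fin n → ℝ}, F.GenAll g → F.Gen g
  | _, leaf _, _, _ => trivial
  | _, round _ _ _ _, _, h => ⟨h.1, (h.2 _).gen⟩

theorem same_refl : ∀ {r : ℕ} (F : RTree n r) (g : Fin n → ℝ), F.Same g g
  | _, leaf _, _ => trivial
  | _, round _ _ _ child, g => ⟨rfl, same_refl (child _) g⟩

theorem Same.eval : ∀ {r : ℕ} {F : RTree n r} {g h : Fin n → ℝ}, F.Same g h →
    F.evalI g = F.evalI h
  | _, leaf _, _, _, _ => rfl
  | _, round _ L b child, g, h, H => by
    simp only [evalI]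
    rw [← H.1]
    exact H.2.eval

/-- the path for large inputs -/
theorem large : ∀ {r : ℕ} (F : RTree n r) (γ : Fin n → ℤ), F.Gen (fun u => (γ u : ℝ)) →
    ∀ᶠ t : ℕ in atTop, F.eval (fun u => t * γ u) = F.evalI (fun u => (γ u : ℝ)) ∧
      F.cost (fun u => t * γ u) = F.costI (fun u => (γ u : ℝ))
  | _, leaf _, _, _ => Eventually.of_forall fun _ => ⟨rfl, rfl⟩
  | _, round m L b child, γ, hg => by
    have h1 : ∀ᶠ t : ℕ in atTop, ∀ j, signs L b (fun u => t * γ u) j =
        sg L b (fun u => (γ u : ℝ)) j := by
      rw [eventually_all]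
      intro j
      have e : ∀ t : ℕ, ∑ u, L j u * (((t * γ u : ℤ)) : ℝ) + b j =
          t * lin (L j) (fun u => (γ u : ℝ)) + b j := by
        intro t
        unfold lin
        rw [mul_sum]
        congr 1
        refine sum_congr rfl fun u _ => ?_
        push_cast
        ring
      simp only [signs, sg, e]
      by_cases hL : L j = 0
      · refine Eventually.of_forall fun t => ?_
        rw [if_pos hL, hL, lin_zero, mul_zero, zero_add]
      · rw [if_neg hL]
        have h2 := hg.1 j hL
        have h3 : ∀ᶠ t : ℕ in atTop, |b j| / |lin (L j) (fun u => (γ u : ℝ))| < (t : ℝ) :=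
          tendsto_natCast_atTop_atTop.eventually_gt_atTop _
        filter_upwards [h3] with t ht
        rw [div_lt_iff₀ (abs_pos.2 h2)] at ht
        rcases lt_or_gt_of_ne h2 with h4 | h4
        · rw [sign_neg h4, sign_neg]
          rw [abs_of_neg h4] at ht
          have := le_abs_self (b j)
          nlinarith
        · rw [sign_pos h4, sign_pos]
          rw [abs_of_pos h4] at ht
          have := neg_abs_le (b j)
          nlinarith
    filter_upwards [h1, large (child (sg L b (fun u => (γ u : ℝ)))) γ hg.2] with t h2 h3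
    have h4 : signs L b (fun u => t * γ u) = sg L b (fun u => (γ u : ℝ)) := funext h2
    simp only [eval, cost, evalI, costI]
    rw [h4, h3.1, h3.2]
    exact ⟨rfl, rfl⟩

/-- the cells are convex -/
theorem convex : ∀ {r : ℕ} (F : RTree n r) (g h : Fin n → ℝ) (a b : ℝ), 0 < a → 0 < b →
    F.Gen g → F.Gen h → F.Same g h → F.Gen (fun u => a * g u + b * h u) ∧
      F.evalI (fun u => a * g u + b * h u) = F.evalI g
  | _, leaf _, _, _, _, _, _, _, _, _, _ => ⟨trivial, rfl⟩
  | _, round m L b child, g, h, a, b', ha, hb, hg, hh, H => by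
    have hh2 : (child (sg L b g)).Gen h := by rw [H.1]; exact hh.2
    obtain ⟨h1, h2⟩ := convex (child (sg L b g)) g h a b' ha hb hg.2 hh2 H.2
    have key : ∀ j, L j ≠ 0 → SignType.sign (lin (L j) (fun u => a * g u + b' * h u)) =
        SignType.sign (lin (L j) g) ∧ lin (L j) (fun u => a * g u + b' * h u) ≠ 0 := by
      intro j hj
      have e := congrFun H.1 j
      simp only [sg, if_neg hj] at e
      rw [lin_add]
      have g1 := hg.1 j hj
      rcases lt_or_gt_of_ne g1 with h4 | h4
      · rw [sign_neg h4] at e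
        have h5 : lin (L j) h < 0 := sign_eq_neg_one_iff.1 e.symm
        have h6 : a * lin (L j) g + b' * lin (L j) h < 0 := by nlinarith
        rw [sign_neg h4, sign_neg h6]
        exact ⟨rfl, h6.ne⟩
      · rw [sign_pos h4] at e
        have h5 : 0 < lin (L j) h := sign_eq_one_iff.1 e.symm
        have h6 : 0 < a * lin (L j) g + b' * lin (L j) h := by nlinarith
        rw [sign_pos h4, sign_pos h6]
        exact ⟨rfl, h6.ne'⟩
    have e : sg L b (fun u => a * g u + b' * h u) = sg L b g := by
      funext j
      simp only [sg]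
      split_ifs with hj
      · rfl
      · exact (key j hj).1
    refine ⟨⟨fun j hj => (key j hj).2, ?_⟩, ?_⟩
    · rw [e]; exact h1
    · simp only [evalI]
      rw [e]
      exact h2

/-- the signs at `K z + w` for large `K` -/
theorem sign_large (x y : ℝ) (h : x ≠ 0) : ∀ᶠ K : ℕ in atTop,
    SignType.sign (K * x + y) = SignType.sign x ∧ K * x + y ≠ 0 := by
  have h3 : ∀ᶠ t : ℕ in atTop, |y| / |x| < (t : ℝ) :=
    tendsto_natCast_atTop_atTop.eventually_gt_atTop _
  filter_upwards [h3] with t ht
  rw [div_lt_iff₀ (abs_pos.2 h)] at ht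
  rcases lt_or_gt_of_ne h with h4 | h4
  · rw [abs_of_neg h4] at ht
    have := le_abs_self y
    have h5 : t * x + y < 0 := by nlinarith
    rw [sign_neg h4, sign_neg h5]
    exact ⟨rfl, h5.ne⟩
  · rw [abs_of_pos h4] at ht
    have := neg_abs_le y
    have h5 : 0 < t * x + y := by nlinarith
    rw [sign_pos h4, sign_pos h5]
    exact ⟨rfl, h5.ne'⟩

/-- perturbations -/
theorem perturb : ∀ {r : ℕ} (F : RTree n r) (z w : Fin n → ℝ), F.Gen z →
    ∀ᶠ K : ℕ in atTop, F.Gen (fun u => K * z u + w u) ∧
      F.evalI (fun u => K * z u + w u) = F.evalI z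
  | _, leaf _, _, _, _ => Eventually.of_forall fun _ => ⟨trivial, rfl⟩
  | _, round m L b child, z, w, hz => by
    have h1 : ∀ᶠ K : ℕ in atTop, ∀ j, L j ≠ 0 →
        SignType.sign (lin (L j) (fun u => K * z u + w u)) = SignType.sign (lin (L j) z) ∧
          lin (L j) (fun u => K * z u + w u) ≠ 0 := by
      rw [eventually_all]
      intro j
      by_cases hj : L j = 0
      · exact Eventually.of_forall fun _ h => absurd hj h
      · filter_upwards [sign_large (lin (L j) z) (lin (L j) w) (hz.1 j hj)] with K hK _
        have e : lin (L j) (fun u => K * z u + w u) = K * lin (L j) z + lin (L j) w := by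
          have := lin_add (L j) z w K 1
          simp only [one_mul] at this
          exact this
        rw [e]
        exact hK
    filter_upwards [h1, perturb (child (sg L b z)) z w hz.2] with K h2 h3
    have e : sg L b (fun u => K * z u + w u) = sg L b z := by
      funext j
      simp only [sg]
      split_ifs with hj
      · rfl
      · exact (h2 j hj).1
    refine ⟨⟨fun j hj => (h2 j hj).2, ?_⟩, ?_⟩
    · rw [e]; exact h3.1
    · simp only [evalI]
      rw [e]
      exact h3.2

/-- generic directions remain generic -/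
theorem perturbAll : ∀ {r : ℕ} (F : RTree n r) (p w : Fin n → ℝ), F.GenAll w →
    ∀ᶠ K : ℕ in atTop, F.GenAll (fun u => K * p u + w u)
  | _, leaf _, _, _, _ => Eventually.of_forall fun _ => trivial
  | _, round m L b child, p, w, hw => by
    have h1 : ∀ᶠ K : ℕ in atTop, ∀ j, L j ≠ 0 → lin (L j) (fun u => K * p u + w u) ≠ 0 := by
      rw [eventually_all]
      intro j
      by_cases hj : L j = 0
      · exact Eventually.of_forall fun _ h => absurd hj h
      · have e : ∀ K : ℕ, lin (L j) (fun u => K * p u + w u) = K * lin (L j) p + lin (L j) w := by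
          intro K
          have := lin_add (L j) p w K 1
          simp only [one_mul] at this
          exact this
        simp only [e]
        by_cases hp : lin (L j) p = 0
        · refine Eventually.of_forall fun K _ => ?_
          rw [hp, mul_zero, zero_add]
          exact hw.1 j hj
        · filter_upwards [sign_large (lin (L j) p) (lin (L j) w) hp] with K hK _
          exact hK.2
    have h2 : ∀ᶠ K : ℕ in atTop, ∀ σ, (child σ).GenAll (fun u => K * p u + w u) := by
      rw [eventually_all]
      exact fun σ => perturbAll (child σ) p w (hw.2 σ)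
    filter_upwards [h1, h2] with K h3 h4
    exact ⟨h3, h4⟩

/-- nonzero polynomials -/
theorem lin_moment (l : Fin n → ℝ) (hl : l ≠ 0) :
    ∀ᶠ t : ℕ in atTop, lin l (fun u => ((t : ℝ)) ^ (u : ℕ)) ≠ 0 := by
  obtain ⟨P, hP⟩ : ∃ P : Polynomial ℝ, P = ∑ u : Fin n, Polynomial.C (l u) * Polynomial.X ^ (u : ℕ) :=
    ⟨_, rfl⟩
  have hP0 : P ≠ 0 := by
    intro h0
    apply hl
    funext u
    have : P.coeff u = l u := by
      rw [hP, Polynomial.finsetSum_coeff, sum_eq_single u]
      · simp
      · intro v _ hv
        rw [Polynomial.coeff_C_mul, Polynomial.coeff_X_pow, if_neg, mul_zero]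
        exact fun h => hv (Fin.ext h.symm)
      · intro h; exact absurd (mem_univ _) h
    rw [h0, Polynomial.coeff_zero] at this
    exact this.symm
  have h1 : ∀ᶠ t : ℝ in atTop, P.eval t ≠ 0 := by
    have hf : (P.roots.toFinset : Set ℝ).Finite := Finset.finite_toSet _
    obtain ⟨B, hB⟩ := hf.bddAbove
    filter_upwards [eventually_gt_atTop B] with t ht h0
    have : t ∈ P.roots.toFinset := by
      rw [Multiset.mem_toFinset, Polynomial.mem_roots hP0]
      exact h0
    exact absurd (hB (by exact_mod_cast this)) (not_le.2 ht)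
  have h2 := tendsto_natCast_atTop_atTop (R := ℝ) |>.eventually h1
  filter_upwards [h2] with t ht h0
  apply ht
  rw [hP, Polynomial.eval_finsetSum, ← h0]
  unfold lin
  exact sum_congr rfl fun u _ => by simp

theorem genAll_moment : ∀ {r : ℕ} (F : RTree n r),
    ∀ᶠ t : ℕ in atTop, F.GenAll (fun u => ((t : ℝ)) ^ (u : ℕ))
  | _, leaf _ => Eventually.of_forall fun _ => trivial
  | _, round m L b child => by
    have h1 : ∀ᶠ t : ℕ in atTop, ∀ j, L j ≠ 0 → lin (L j) (fun u => ((t : ℝ)) ^ (u : ℕ)) ≠ 0 := by
      rw [eventually_all]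
      intro j
      by_cases hj : L j = 0
      · exact Eventually.of_forall fun _ h => absurd hj h
      · filter_upwards [lin_moment (L j) hj] with t ht _
        exact ht
    have h2 : ∀ᶠ t : ℕ in atTop, ∀ σ, (child σ).GenAll (fun u => ((t : ℝ)) ^ (u : ℕ)) := by
      rw [eventually_all]
      exact fun σ => genAll_moment (child σ)
    filter_upwards [h1, h2] with t h3 h4
    exact ⟨h3, h4⟩

end RTree

end Pool.Agent.K4H88.Rounds
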