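import Pool.Agent.K4H88.Rounds.Count
import Pool.Agent.K4H88.Rounds.Cells

set_option autoImplicit false

/-! # 3SUM with few rounds of linear tests -/

namespace Pool.Agent.K4H88.Rounds

open Finset Filter Pool.Agent.K4H88.Ter

variable {n r : ℕ}

/-- the functional `g a + g b - g c` -/
def fn (a b c : Fin n) : Fin n → ℝ := fun u =>
  (if u = a then 1 else 0) + (if u = b then 1 else 0) - (if u = c then 1 else 0)

theorem lin_fn (a b c : Fin n) (g : Fin n → ℝ) : lin (fn a b c) g = g a + g b - g c := by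
  unfold lin fn
  simp only [sub_mul, add_mul, ite_mul, one_mul, zero_mul, sum_sub_distrib, sum_add_distrib,
    sum_ite_eq', mem_univ, if_true]

theorem fn_ne {a b c : Fin n} (h1 : a ≠ b) (h2 : a ≠ c) : fn a b c ≠ 0 := by
  intro h
  have := congrFun h a
  simp [fn, h1, h2] at this

/-- the functional `g a - g b` -/
def df (a b : Fin n) : Fin n → ℝ := fun u => (if u = a then 1 else 0) - (if u = b then 1 else 0)

theorem lin_df (a b : Fin n) (g : Fin n → ℝ) : lin (df a b) g = g a - g b := by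
  unfold lin df
  simp only [sub_mul, ite_mul, one_mul, zero_mul, sum_sub_distrib, sum_ite_eq', mem_univ, if_true]

theorem df_ne {a b : Fin n} (h1 : a ≠ b) : df a b ≠ 0 := by
  intro h
  have := congrFun h a
  simp [df, h1] at this

theorem perturb_lin (l p w : Fin n → ℝ) (hw : lin l w ≠ 0) :
    ∀ᶠ K : ℕ in atTop, lin l (fun u => K * p u + w u) ≠ 0 := by
  have e : ∀ K : ℕ, lin l (fun u => K * p u + w u) = K * lin l p + lin l w := by
    intro K
    have := lin_add l p w K 1
    simp only [one_mul] at this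
    exact this
  simp only [e]
  by_cases hp : lin l p = 0
  · refine Eventually.of_forall fun K => ?_
    rw [hp, mul_zero, zero_add]
    exact hw
  · filter_upwards [sign_large' (lin l p) (lin l w) hp] with K hK
    exact hK
where
  sign_large' (x y : ℝ) (h : x ≠ 0) : ∀ᶠ K : ℕ in atTop, K * x + y ≠ 0 :=
    (RTree.sign_large x y h).mono fun _ h => h.2

/-- a number without solutions -/
theorem no_sol {γ : Fin n → ℤ} (hγ : ∀ a b c : Fin n, a ≠ b → a ≠ c → b ≠ c →
    lin (fn a b c) (fun u => (γ u : ℝ)) ≠ 0) {t : ℕ} (ht : 0 < t) :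
    ¬ HasSum3 (fun u => (t : ℤ) * γ u) := by
  rintro ⟨a, b, c, h1, h2, h3, h⟩
  apply hγ a b c h1 h2 h3
  rw [lin_fn]
  have ht' : (t : ℤ) ≠ 0 := by exact_mod_cast ht.ne'
  have h4 : γ a + γ b = γ c := by
    apply mul_left_cancel₀ ht'
    simp only at h
    linarith
  have h5 : ((γ a + γ b : ℤ) : ℝ) = (γ c : ℝ) := by rw [h4]
  push_cast at h5
  linarith

theorem inj_mul {γ : Fin n → ℤ} (hγ : Function.Injective γ) {t : ℕ} (ht : 0 < t) :
    Function.Injective (fun u => (t : ℤ) * γ u) := by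
  intro a b hab
  have ht' : (t : ℤ) ≠ 0 := by exact_mod_cast ht.ne'
  exact hγ (mul_left_cancel₀ ht' hab)

/-- different cells belong to different leaves -/
theorem diff_leaves (F : RTree n r) (hF : ∀ x : Fin n → ℤ, Function.Injective x →
      (F.eval x = true ↔ HasSum3 x)) (g h : Fin n → ℤ)
    (hg : F.Gen (fun u => (g u : ℝ))) (hh : F.Gen (fun u => (h u : ℝ)))
    (hS : F.Same (fun u => (g u : ℝ)) (fun u => (h u : ℝ)))
    (he : F.evalI (fun u => (g u : ℝ)) = false) (i j k : Fin n) (hij : i ≠ j) (hik : i ≠ k)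
    (hjk : j ≠ k) (a b : ℤ) (ha : 0 < a) (hb : 0 < b)
    (hz : a * (g i + g j - g k) + b * (h i + h j - h k) = 0) : False := by
  obtain ⟨z, hzd⟩ : ∃ z : Fin n → ℤ, z = fun u => a * g u + b * h u := ⟨_, rfl⟩
  have e1 : (fun u => (z u : ℝ)) = fun u => (a : ℝ) * (g u : ℝ) + (b : ℝ) * (h u : ℝ) := by
    rw [hzd]
    funext u
    push_cast
    ring
  have hz1 : F.Gen (fun u => (z u : ℝ)) ∧ F.evalI (fun u => (z u : ℝ)) = false := by
    rw [e1, ← he]
    exact F.convex _ _ a b (by exact_mod_cast ha) (by exact_mod_cast hb) hg hh hS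
  have hz0 : z i + z j - z k = 0 := by
    rw [hzd]
    simp only
    linarith
  -- an injective solution
  obtain ⟨w, hw⟩ : ∃ w : Fin n → ℤ, w = fun u : Fin n => if u = i then (1 : ℤ) else
    if u = j then 2 else if u = k then 3 else 4 + ((u : ℕ) : ℤ) := ⟨_, rfl⟩
  have hwi : w i = 1 := by rw [hw]; simp
  have hwj : w j = 2 := by rw [hw]; simp [hij.symm]
  have hwk : w k = 3 := by rw [hw]; simp [hik.symm, hjk.symm]
  have hwinj : Function.Injective w := by
    intro u v huv
    rw [hw] at huv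
    simp only at huv
    by_cases u1 : u = i
    · by_cases v1 : v = i
      · exact u1.trans v1.symm
      · rw [if_pos u1, if_neg v1] at huv
        split_ifs at huv <;> omega
    · rw [if_neg u1] at huv
      by_cases v1 : v = i
      · rw [if_pos v1] at huv
        split_ifs at huv <;> omega
      · rw [if_neg v1] at huv
        by_cases u2 : u = j
        · by_cases v2 : v = j
          · exact u2.trans v2.symm
          · rw [if_pos u2, if_neg v2] at huv
            split_ifs at huv <;> omega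
        · rw [if_neg u2] at huv
          by_cases v2 : v = j
          · rw [if_pos v2] at huv
            split_ifs at huv <;> omega
          · rw [if_neg v2] at huv
            by_cases u3 : u = k
            · by_cases v3 : v = k
              · exact u3.trans v3.symm
              · rw [if_pos u3, if_neg v3] at huv
                omega
            · rw [if_neg u3] at huv
              by_cases v3 : v = k
              · rw [if_pos v3] at huv
                omega
              · rw [if_neg v3] at huv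
                apply Fin.ext
                omega
  have hinj : ∀ᶠ K : ℕ in atTop, Function.Injective (fun u => (K : ℤ) * z u + w u) := by
    have h1 : ∀ᶠ K : ℕ in atTop, ∀ u v : Fin n, u ≠ v →
        (K : ℤ) * z u + w u ≠ (K : ℤ) * z v + w v := by
      rw [eventually_all]
      intro u
      rw [eventually_all]
      intro v
      by_cases huv : u = v
      · exact Eventually.of_forall fun _ h => absurd huv h
      by_cases hzz : z u = z v
      · refine Eventually.of_forall fun K _ he => ?_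
        rw [hzz] at he
        exact huv (hwinj (add_left_cancel he))
      · filter_upwards [eventually_gt_atTop (w v - w u).natAbs] with K hK _ he
        have e3 : (K : ℤ) * (z u - z v) = w v - w u := by linarith
        have e4 : ((K : ℤ) * (z u - z v)).natAbs = (w v - w u).natAbs := by rw [e3]
        rw [Int.natAbs_mul, Int.natAbs_natCast] at e4
        have e5 : 1 ≤ (z u - z v).natAbs := Int.natAbs_pos.2 (sub_ne_zero.2 hzz)
        nlinarith
    filter_upwards [h1] with K hK u v huv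
    by_contra hne
    exact hK u v hne huv
  have hp := F.perturb (fun u => (z u : ℝ)) (fun u => (w u : ℝ)) hz1.1
  obtain ⟨K, hK1, hK2, hK3⟩ := (hinj.and hp).exists
  obtain ⟨y, hy⟩ : ∃ y : Fin n → ℤ, y = fun u => (K : ℤ) * z u + w u := ⟨_, rfl⟩
  have e2 : (fun u => (y u : ℝ)) = fun u => (K : ℝ) * (z u : ℝ) + (w u : ℝ) := by
    rw [hy]
    funext u
    push_cast
    ring
  rw [← e2] at hK2 hK3
  obtain ⟨t, ht1, ht2⟩ := ((F.large y hK2).and (eventually_gt_atTop 0)).exists
  have hyinj : Function.Injective y := by rw [hy]; exact hK1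
  have h5 := hF (fun u => (t : ℤ) * y u) (inj_mul hyinj ht2)
  rw [ht1.1, hK3, hz1.2] at h5
  apply absurd (h5.2 ⟨i, j, k, hij, hik, hjk, ?_⟩) (by decide)
  have h6 : y i + y j = y k := by
    rw [hy]
    simp only [hwi, hwj, hwk]
    have : (K : ℤ) * (z i + z j - z k) = 0 := by rw [hz0, mul_zero]
    linarith
  show (t : ℤ) * y i + (t : ℤ) * y j = (t : ℤ) * y k
  rw [← mul_add, h6]

theorem phi_le {n C : ℕ} (hn : 1 ≤ n) (hC : n ≤ C) :
    (n : ℝ) ^ n * (phi n C : ℝ) ≤ (Real.exp 1 * C) ^ n := by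
  have hC0 : (0 : ℝ) < C := by exact_mod_cast (by omega : 0 < C)
  have hn0 : (0 : ℝ) < n := by exact_mod_cast hn
  obtain ⟨x, hx⟩ : ∃ x : ℝ, x = n / C := ⟨_, rfl⟩
  have hx0 : 0 < x := by rw [hx]; positivity
  have hx1 : x ≤ 1 := by rw [hx, div_le_one hC0]; exact_mod_cast hC
  have h1 : x ^ n * (phi n C : ℝ) ≤ Real.exp 1 ^ n := by
    calc x ^ n * (phi n C : ℝ) = ∑ i ∈ range (n + 1), x ^ n * (C.choose i : ℝ) := by
          unfold phi
          rw [Nat.cast_sum, mul_sum]
      _ ≤ ∑ i ∈ range (n + 1), x ^ i * (C.choose i : ℝ) := by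
          apply sum_le_sum
          intro i hi
          apply mul_le_mul_of_nonneg_right _ (Nat.cast_nonneg _)
          exact pow_le_pow_of_le_one hx0.le hx1 (by have := mem_range.1 hi; omega)
      _ ≤ ∑ i ∈ range (C + 1), x ^ i * (C.choose i : ℝ) := by
          apply sum_le_sum_of_subset_of_nonneg
          · exact range_subset_range.2 (by omega)
          · intro i _ _
            positivity
      _ = (x + 1) ^ C := by
          rw [add_pow]
          exact sum_congr rfl fun i _ => by rw [one_pow, mul_one]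
      _ ≤ (Real.exp x) ^ C := by
          apply pow_le_pow_left₀ (by positivity)
          exact Real.add_one_le_exp x
      _ = Real.exp 1 ^ n := by
          rw [← Real.exp_nat_mul, ← Real.exp_nat_mul, hx]
          congr 1
          field_simp
  have h2 : (n : ℝ) ^ n = x ^ n * C ^ n := by
    rw [← mul_pow, hx]
    congr 1
    field_simp
  rw [h2, mul_pow]
  calc x ^ n * (C : ℝ) ^ n * (phi n C : ℝ) = (x ^ n * (phi n C : ℝ)) * C ^ n := by ring
    _ ≤ Real.exp 1 ^ n * C ^ n := mul_le_mul_of_nonneg_right h1 (by positivity)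

/-- the arithmetic -/
theorem arith {n r C : ℕ} (hn : 1 ≤ n) (hC : n ≤ C)
    (h : (∏ k ∈ range n, ((k.choose 2 + 1 : ℕ) : ℝ)) ≤ 2 * (phi n C : ℝ) ^ r) :
    (n : ℝ) ^ (r + 2) ≤ 120 * (3 * C) ^ r := by
  have h1 := prod_lower n
  have h2 : (n : ℝ) ^ n / n.factorial ≤ Real.exp 1 ^ n := by
    rw [← Real.exp_nat_mul, mul_one]
    exact Real.pow_div_factorial_le_exp _ (Nat.cast_nonneg n) n
  have hf : (0 : ℝ) < n.factorial := by exact_mod_cast Nat.factorial_pos n
  rw [div_le_iff₀ hf] at h2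
  have hn0 : (0 : ℝ) < n := by exact_mod_cast hn
  have h3 : ((n : ℝ) ^ n) ^ 2 ≤ (Real.exp 1 ^ n) ^ 2 * (8 ^ n * (2 * (phi n C : ℝ) ^ r)) := by
    calc ((n : ℝ) ^ n) ^ 2 ≤ (Real.exp 1 ^ n * n.factorial) ^ 2 :=
          pow_le_pow_left₀ (by positivity) h2 2
      _ = (Real.exp 1 ^ n) ^ 2 * (n.factorial : ℝ) ^ 2 := by ring
      _ ≤ (Real.exp 1 ^ n) ^ 2 * (8 ^ n * ∏ k ∈ range n, ((k.choose 2 + 1 : ℕ) : ℝ)) :=
          mul_le_mul_of_nonneg_left h1 (by positivity)
      _ ≤ _ := by
          apply mul_le_mul_of_nonneg_left _ (by positivity)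
          exact mul_le_mul_of_nonneg_left h (by positivity)
  have h4 := phi_le hn hC
  have h5 : ((n : ℝ) ^ (r + 2)) ^ n ≤ (120 * (3 * C) ^ r) ^ n := by
    have e1 : ((n : ℝ) ^ n * (phi n C : ℝ)) ^ r ≤ ((Real.exp 1 * C) ^ n) ^ r :=
      pow_le_pow_left₀ (by positivity) h4 r
    have e2 : (2 : ℝ) ≤ 2 ^ n := by
      calc (2 : ℝ) = 2 ^ 1 := by norm_num
        _ ≤ 2 ^ n := pow_le_pow_right₀ (by norm_num) hn
    have hexp : Real.exp 1 ≤ 2.7182818286 := Real.exp_one_lt_d9.le
    have hexp0 : 0 < Real.exp 1 := Real.exp_pos 1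
    have e3 : Real.exp 1 ^ 2 ≤ 7.39 := by nlinarith
    calc ((n : ℝ) ^ (r + 2)) ^ n = ((n : ℝ) ^ n) ^ 2 * ((n : ℝ) ^ n) ^ r := by
          rw [← pow_mul, ← pow_mul, ← pow_mul, ← pow_add]
          congr 1
          ring
      _ ≤ ((Real.exp 1 ^ n) ^ 2 * (8 ^ n * (2 * (phi n C : ℝ) ^ r))) * ((n : ℝ) ^ n) ^ r :=
          mul_le_mul_of_nonneg_right h3 (by positivity)
      _ = (Real.exp 1 ^ n) ^ 2 * 8 ^ n * 2 * (((n : ℝ) ^ n * (phi n C : ℝ)) ^ r) := by
          rw [mul_pow]; ring
      _ ≤ (Real.exp 1 ^ n) ^ 2 * 8 ^ n * 2 ^ n * (((Real.exp 1 * C) ^ n) ^ r) := by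
          apply mul_le_mul _ e1 (by positivity) (by positivity)
          exact mul_le_mul_of_nonneg_left e2 (by positivity)
      _ = (16 * Real.exp 1 ^ 2 * (Real.exp 1 * C) ^ r) ^ n := by
          have h16 : (16 : ℝ) ^ n = 8 ^ n * 2 ^ n := by rw [← mul_pow]; norm_num
          have h17 : (16 * Real.exp 1 ^ 2 * (Real.exp 1 * C) ^ r) ^ n =
              16 ^ n * (Real.exp 1 ^ 2) ^ n * ((Real.exp 1 * C) ^ r) ^ n := by
            rw [mul_pow, mul_pow]
          rw [h17, h16]
          ring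
      _ ≤ (120 * (3 * C) ^ r) ^ n := by
          apply pow_le_pow_left₀ (by positivity)
          apply mul_le_mul
          · linarith
          · apply pow_le_pow_left₀ (by positivity)
            exact mul_le_mul_of_nonneg_right (by linarith) (by positivity)
          · positivity
          · norm_num
  exact le_of_pow_le_pow_left₀ (by omega) (by positivity) h5

open Classical in
theorem main (hn : 1 ≤ n) {Ω : Type} [Fintype Ω] (μ : Ω → ℝ) (hμ : ∀ ω, 0 ≤ μ ω)
    (hμ1 : ∑ ω, μ ω = 1) (F : Ω → RTree n r) (T : ℝ) (hT : (n : ℝ) ≤ T)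
    (hF : ∀ ω, ∀ x : Fin n → ℤ, Function.Injective x → ((F ω).eval x = true ↔ HasSum3 x))
    (hcost : ∀ x : Fin n → ℤ, Function.Injective x → ¬ HasSum3 x →
      ∑ ω, μ ω * (F ω).cost x ≤ T) :
    (n : ℝ) ^ (r + 2) ≤ 120 * (6 * T) ^ r := by
  obtain ⟨𝒬, hcard, -, hsep⟩ := cells n
  have hn0 : (0 : ℝ) < n := by exact_mod_cast hn
  -- a generic direction
  obtain ⟨t, ⟨ht1, ht2⟩, ht3⟩ : ∃ t : ℕ, ((∀ ω, (F ω).GenAll (fun u => ((t : ℝ)) ^ (u : ℕ))) ∧
      (∀ a b c : Fin n, a ≠ b → a ≠ c → lin (fn a b c) (fun u => ((t : ℝ)) ^ (u : ℕ)) ≠ 0)) ∧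
      (∀ a b : Fin n, a ≠ b → lin (df a b) (fun u => ((t : ℝ)) ^ (u : ℕ)) ≠ 0) := by
    refine Eventually.exists (f := atTop) (((eventually_all.2 fun ω =>
      RTree.genAll_moment (F ω)).and ?_).and ?_)
    · rw [eventually_all]; intro a
      rw [eventually_all]; intro b
      rw [eventually_all]; intro c
      by_cases h1 : a = b
      · exact Eventually.of_forall fun _ h => absurd h1 h
      by_cases h2 : a = c
      · exact Eventually.of_forall fun _ _ h => absurd h2 h
      · exact (RTree.lin_moment _ (fn_ne h1 h2)).mono fun _ h _ _ => h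
    · rw [eventually_all]; intro a
      rw [eventually_all]; intro b
      by_cases h1 : a = b
      · exact Eventually.of_forall fun _ h => absurd h1 h
      · exact (RTree.lin_moment _ (df_ne h1)).mono fun _ h _ => h
  obtain ⟨w, hw⟩ : ∃ w : Fin n → ℝ, w = fun u : Fin n => ((t : ℝ)) ^ (u : ℕ) := ⟨_, rfl⟩
  obtain ⟨wz, hwz⟩ : ∃ wz : Fin n → ℤ, wz = fun u : Fin n => ((t : ℤ)) ^ (u : ℕ) := ⟨_, rfl⟩
  have hww : ∀ u, (wz u : ℝ) = w u := by
    intro u; rw [hw, hwz]; push_cast; rfl
  rw [← hw] at ht1 ht2 ht3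
  -- generic points in the cells
  obtain ⟨K, hK1, hK2, hK3, hK4⟩ : ∃ K : ℕ,
      (∀ p : 𝒬, ∀ ω, (F ω).GenAll (fun u => K * (p.1 u : ℝ) + w u)) ∧
      (∀ p : 𝒬, ∀ a b c : Fin n, a ≠ b → a ≠ c →
        lin (fn a b c) (fun u => K * (p.1 u : ℝ) + w u) ≠ 0) ∧
      (∀ p : 𝒬, ∀ a b : Fin n, a ≠ b → lin (df a b) (fun u => K * (p.1 u : ℝ) + w u) ≠ 0) ∧
      (∀ a b c : Fin n, |wz a + wz b - wz c| < (K : ℤ)) := by
    have q1 : ∀ᶠ K : ℕ in atTop, ∀ p : 𝒬, ∀ ω, (F ω).GenAll (fun u => K * (p.1 u : ℝ) + w u) := by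
      rw [eventually_all]; intro p
      rw [eventually_all]; intro ω
      exact RTree.perturbAll (F ω) (fun u => (p.1 u : ℝ)) w (ht1 ω)
    have q2 : ∀ᶠ K : ℕ in atTop, ∀ p : 𝒬, ∀ a b c : Fin n, a ≠ b → a ≠ c →
        lin (fn a b c) (fun u => K * (p.1 u : ℝ) + w u) ≠ 0 := by
      rw [eventually_all]; intro p
      rw [eventually_all]; intro a
      rw [eventually_all]; intro b
      rw [eventually_all]; intro c
      by_cases h1 : a = b
      · exact Eventually.of_forall fun _ h => absurd h1 h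
      by_cases h2 : a = c
      · exact Eventually.of_forall fun _ _ h => absurd h2 h
      · exact (perturb_lin _ (fun u => (p.1 u : ℝ)) w (ht2 a b c h1 h2)).mono fun _ h _ _ => h
    have q3 : ∀ᶠ K : ℕ in atTop, ∀ p : 𝒬, ∀ a b : Fin n, a ≠ b →
        lin (df a b) (fun u => K * (p.1 u : ℝ) + w u) ≠ 0 := by
      rw [eventually_all]; intro p
      rw [eventually_all]; intro a
      rw [eventually_all]; intro b
      by_cases h1 : a = b
      · exact Eventually.of_forall fun _ h => absurd h1 h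
      · exact (perturb_lin _ (fun u => (p.1 u : ℝ)) w (ht3 a b h1)).mono fun _ h _ => h
    have q4 : ∀ᶠ K : ℕ in atTop, ∀ a b c : Fin n, |wz a + wz b - wz c| < (K : ℤ) := by
      rw [eventually_all]; intro a
      rw [eventually_all]; intro b
      rw [eventually_all]; intro c
      filter_upwards [eventually_gt_atTop (wz a + wz b - wz c).natAbs] with K hK
      rw [Int.abs_eq_natAbs]
      exact_mod_cast hK
    exact (q1.and (q2.and (q3.and q4))).exists
  obtain ⟨G, hG⟩ : ∃ G : (Fin n → ℤ) → Fin n → ℤ, G = fun p u => (K : ℤ) * p u + wz u := ⟨_, rfl⟩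
  have hGr : ∀ p : Fin n → ℤ, (fun u => ((G p u : ℤ) : ℝ)) = fun u => K * (p u : ℝ) + w u := by
    intro p
    rw [hG]
    funext u
    push_cast
    rw [hww]
  have hGinj : ∀ p : 𝒬, Function.Injective (G p.1) := by
    intro p a b hab
    by_contra hne
    apply hK3 p a b hne
    rw [← hGr, lin_df, hab, sub_self]
  -- large multiples
  obtain ⟨s, hs1, hs2⟩ : ∃ s : ℕ, 0 < s ∧ ∀ p : 𝒬, ∀ ω,
      (F ω).eval (fun u => s * G p.1 u) = (F ω).evalI (fun u => ((G p.1 u : ℤ) : ℝ)) ∧
      (F ω).cost (fun u => s * G p.1 u) = (F ω).costI (fun u => ((G p.1 u : ℤ) : ℝ)) := by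
    have q1 : ∀ᶠ s : ℕ in atTop, ∀ p : 𝒬, ∀ ω,
        (F ω).eval (fun u => s * G p.1 u) = (F ω).evalI (fun u => ((G p.1 u : ℤ) : ℝ)) ∧
        (F ω).cost (fun u => s * G p.1 u) = (F ω).costI (fun u => ((G p.1 u : ℤ) : ℝ)) := by
      rw [eventually_all]; intro p
      rw [eventually_all]; intro ω
      apply RTree.large (F ω) (G p.1)
      rw [hGr]
      exact (hK1 p ω).gen
    exact ((eventually_gt_atTop 0).and q1).exists
  have hxi : ∀ p : 𝒬, Function.Injective (fun u => (s : ℤ) * G p.1 u) := fun p =>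
    inj_mul (hGinj p) hs1
  have hxs : ∀ p : 𝒬, ¬ HasSum3 (fun u => (s : ℤ) * G p.1 u) := by
    intro p
    apply no_sol _ hs1
    intro a b c h1 h2 _
    rw [hGr]
    exact hK2 p a b c h1 h2
  have hev : ∀ p : 𝒬, ∀ ω, (F ω).evalI (fun u => ((G p.1 u : ℤ) : ℝ)) = false := by
    intro p ω
    rw [← (hs2 p ω).1]
    have := (hF ω _ (hxi p)).not.2 (hxs p)
    simpa using this
  -- different cells have different leaves
  have hdiff : ∀ ω, ∀ p q : 𝒬, (F ω).Same (fun u => ((G p.1 u : ℤ) : ℝ))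
      (fun u => ((G q.1 u : ℤ) : ℝ)) → p = q := by
    intro ω p q hS
    by_contra hne
    have hGf : ∀ (p : Fin n → ℤ) (a b c : Fin n), G p a + G p b - G p c =
        K * (p a + p b - p c) + (wz a + wz b - wz c) := by
      intro p a b c
      rw [hG]
      ring
    have hgen : ∀ p : 𝒬, (F ω).Gen (fun u => ((G p.1 u : ℤ) : ℝ)) := by
      intro p
      rw [hGr]
      exact (hK1 p ω).gen
    have hK0 : (0 : ℤ) ≤ K := Int.natCast_nonneg K
    have hneg : ∀ (p : Fin n → ℤ) (a b c : Fin n), p a + p b - p c < 0 →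
        G p a + G p b - G p c < 0 := by
      intro p a b c h
      rw [hGf]
      have := (abs_lt.1 (hK4 a b c)).2
      nlinarith
    have hpos : ∀ (p : Fin n → ℤ) (a b c : Fin n), 0 < p a + p b - p c →
        0 < G p a + G p b - G p c := by
      intro p a b c h
      rw [hGf]
      have := (abs_lt.1 (hK4 a b c)).1
      nlinarith
    rcases hsep p.1 p.2 q.1 q.2 (fun h => hne (Subtype.ext h)) with h | h
    · obtain ⟨i, j, k, h1, h2, h3, h4, h5⟩ := h
      have h6 := hneg _ _ _ _ h4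
      have h7 := hpos _ _ _ _ h5
      exact diff_leaves (F ω) (hF ω) (G p.1) (G q.1) (hgen p) (hgen q) hS (hev p ω) i j k h1 h2 h3
        (G q.1 i + G q.1 j - G q.1 k) (-(G p.1 i + G p.1 j - G p.1 k)) h7 (by linarith) (by ring)
    · obtain ⟨i, j, k, h1, h2, h3, h4, h5⟩ := h
      have h6 := hneg _ _ _ _ h4
      have h7 := hpos _ _ _ _ h5
      exact diff_leaves (F ω) (hF ω) (G p.1) (G q.1) (hgen p) (hgen q) hS (hev p ω) i j k h1 h2 h3
        (-(G q.1 i + G q.1 j - G q.1 k)) (G p.1 i + G p.1 j - G p.1 k) (by linarith) h7 (by ring)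
  -- a good tree
  have hT0 : 0 < T := lt_of_lt_of_le hn0 hT
  obtain ⟨ω, hω⟩ : ∃ ω, ∑ p : 𝒬, (((F ω).costI (fun u => ((G p.1 u : ℤ) : ℝ)) : ℕ) : ℝ) ≤
      𝒬.card * T := by
    by_contra hcon
    push Not at hcon
    have q1 : ∑ p : 𝒬, ∑ ω, μ ω * (((F ω).costI (fun u => ((G p.1 u : ℤ) : ℝ)) : ℕ) : ℝ) ≤
        𝒬.card * T := by
      calc _ ≤ ∑ _p : 𝒬, T := by
            apply sum_le_sum
            intro p _
            have := hcost _ (hxi p) (hxs p)
            simp only [(hs2 p _).2] at this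
            exact this
        _ = _ := by rw [sum_const, card_univ, Fintype.card_coe, nsmul_eq_mul]
    rw [sum_comm] at q1
    have q2 : 𝒬.card * T < ∑ ω, ∑ p : 𝒬, μ ω *
        (((F ω).costI (fun u => ((G p.1 u : ℤ) : ℝ)) : ℕ) : ℝ) := by
      calc 𝒬.card * T = ∑ ω, μ ω * (𝒬.card * T) := by rw [← sum_mul, hμ1, one_mul]
        _ < _ := by
          apply sum_lt_sum
          · intro ω _
            rw [← mul_sum]
            exact mul_le_mul_of_nonneg_left (hcon ω).le (hμ ω)
          · obtain ⟨ω, hω⟩ : ∃ ω, 0 < μ ω := by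
              by_contra hc
              push Not at hc
              have : ∑ ω, μ ω ≤ 0 := sum_nonpos fun ω _ => hc ω
              linarith
            refine ⟨ω, mem_univ _, ?_⟩
            rw [← mul_sum]
            exact mul_lt_mul_of_pos_left (hcon ω) hω
    linarith
  -- Markov
  obtain ⟨C, hC⟩ : ∃ C : ℕ, C = ⌊2 * T⌋₊ := ⟨_, rfl⟩
  have hCT : (C : ℝ) ≤ 2 * T := by rw [hC]; exact Nat.floor_le (by linarith)
  have hCn : n ≤ C := by rw [hC]; exact Nat.le_floor (by linarith)
  obtain ⟨A, hA⟩ : ∃ A : Finset 𝒬, A = univ.filter (fun p : 𝒬 =>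
    (F ω).costI (fun u => ((G p.1 u : ℤ) : ℝ)) ≤ C) := ⟨_, rfl⟩
  have hA1 : (𝒬.card : ℝ) ≤ 2 * A.card := by
    have q1 : ((univ.filter (fun p : 𝒬 => ¬ (F ω).costI (fun u => ((G p.1 u : ℤ) : ℝ)) ≤ C)).card : ℝ)
        * (2 * T) ≤ 𝒬.card * T := by
      calc _ = ∑ _p ∈ univ.filter (fun p : 𝒬 =>
            ¬ (F ω).costI (fun u => ((G p.1 u : ℤ) : ℝ)) ≤ C), 2 * T := by
            rw [sum_const, nsmul_eq_mul]
        _ ≤ ∑ p ∈ univ.filter (fun p : 𝒬 =>
            ¬ (F ω).costI (fun u => ((G p.1 u : ℤ) : ℝ)) ≤ C),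
              (((F ω).costI (fun u => ((G p.1 u : ℤ) : ℝ)) : ℕ) : ℝ) := by
            apply sum_le_sum
            intro p hp
            rw [mem_filter] at hp
            have h1 : C + 1 ≤ (F ω).costI (fun u => ((G p.1 u : ℤ) : ℝ)) := by omega
            have h2 : 2 * T < (C : ℝ) + 1 := by rw [hC]; exact Nat.lt_floor_add_one _
            have h3 : ((C : ℝ) + 1) ≤ (((F ω).costI (fun u => ((G p.1 u : ℤ) : ℝ)) : ℕ) : ℝ) := by
              exact_mod_cast h1
            linarith
        _ ≤ ∑ p : 𝒬, (((F ω).costI (fun u => ((G p.1 u : ℤ) : ℝ)) : ℕ) : ℝ) :=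
            sum_le_sum_of_subset_of_nonneg (filter_subset _ _) fun _ _ _ => Nat.cast_nonneg _
        _ ≤ _ := hω
    have q2 := card_filter_add_card_filter_not (s := (univ : Finset 𝒬)) (fun p : 𝒬 =>
      (F ω).costI (fun u => ((G p.1 u : ℤ) : ℝ)) ≤ C)
    rw [← hA, card_univ, Fintype.card_coe] at q2
    have q3 : (A.card : ℝ) + ((univ.filter (fun p : 𝒬 =>
        ¬ (F ω).costI (fun u => ((G p.1 u : ℤ) : ℝ)) ≤ C)).card : ℝ) = 𝒬.card := by
      exact_mod_cast q2
    have q4 : 2 * ((univ.filter (fun p : 𝒬 =>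
        ¬ (F ω).costI (fun u => ((G p.1 u : ℤ) : ℝ)) ≤ C)).card : ℝ) ≤ 𝒬.card := by
      apply le_of_mul_le_mul_right _ hT0
      linarith
    linarith
  have hA2 : A.card ≤ phi n C ^ r := by
    have q1 : (A.image (fun p : 𝒬 => fun u => ((G p.1 u : ℤ) : ℝ))).card = A.card := by
      apply card_image_of_injective
      intro p q hpq
      apply hdiff ω p q
      simp only at hpq
      rw [hpq]
      exact RTree.same_refl _ _
    rw [← q1]
    apply card_leaves (F ω) C
    · intro g hg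
      rw [mem_image] at hg
      obtain ⟨p, -, rfl⟩ := hg
      rw [hGr]
      exact (hK1 p ω).gen
    · intro g hg
      rw [mem_image] at hg
      obtain ⟨p, hp, rfl⟩ := hg
      rw [hA, mem_filter] at hp
      exact hp.2
    · intro g hg h hh hS
      rw [mem_image] at hg hh
      obtain ⟨p, -, rfl⟩ := hg
      obtain ⟨q, -, rfl⟩ := hh
      rw [hdiff ω p q hS]
  have hfin : (∏ k ∈ range n, ((k.choose 2 + 1 : ℕ) : ℝ)) ≤ 2 * (phi n C : ℝ) ^ r := by
    have q1 : (∏ k ∈ range n, ((k.choose 2 + 1 : ℕ) : ℝ)) = 𝒬.card := by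
      rw [hcard]; push_cast; rfl
    rw [q1]
    have q2 : (A.card : ℝ) ≤ (phi n C : ℝ) ^ r := by exact_mod_cast hA2
    linarith
  calc (n : ℝ) ^ (r + 2) ≤ 120 * (3 * C) ^ r := arith hn hCn hfin
    _ ≤ 120 * (6 * T) ^ r := by
        apply mul_le_mul_of_nonneg_left _ (by norm_num)
        exact pow_le_pow_left₀ (by positivity) (by linarith) r

end Pool.Agent.K4H88.Rounds
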